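import Mathlib
import Pool.Agent.Run7.h446.HeegDefs
import Pool.Agent.Run7.h446.HeegProof

set_option autoImplicit false

open scoped TensorProduct

namespace Pool.Agent.Results.MP_77557b_nt.RankOneEulerFactor

open Run7.h446.Heeg

/-- Rank one: the class of `L = θ ⊗ θ^*` modulo `J` is never a nonzero rational multiple of
`P ⊗ P`; in particular it is never the displayed right hand side. -/
theorem result (p : ℕ) [Fact p.Prime] (W : WeierstrassCurve ℤ) (hord : ¬ (p : ℤ) ∣ ap W p)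
    (α : ℚ_[p]) (hroot : α ^ 2 - (ap W p : ℚ_[p]) * α + p = 0)
    (K H F L Kb : Type) [Field K] [NumberField K] [Field H] [Field F] [Field L] [Field Kb]
    [Algebra K H] [Algebra K F] [Algebra K L] [Algebra K Kb] [IsAlgClosure K Kb]
    [FiniteDimensional K H] [IsGalois K H] [FiniteDimensional K F] [IsGalois K F]
    (iH : H →ₐ[K] Kb) (iF : F →ₐ[K] L) (iL : L →ₐ[K] Kb)
    (u : ℕ) (σ σ' : H ≃ₐ[K] H) (c₀ : ℤ) (x₀ : Pt W H) (z : VV p W F)
    (hz : VV.map p W (iL.comp iF : F →+* Kb) (norm p W K z) =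
      VV.map p W (iH : H →+* Kb) (norm p W K (zzero p W K u α σ σ' c₀ x₀)))
    (P : Pt W K) (hP : addOrderOf P = 0) (hidx : (AddSubgroup.zmultiples P).index ≠ 0) :
    (∀ S C : ℕ, S ≠ 0 → C ≠ 0 → classJ p W K (iF : F →+* L) z ≠
      ((p : ℚ_[p])⁻¹ ^ 2 * (1 + p - (ap W p : ℚ_[p])) ^ 2 * S * C ^ 2 *
        ((AddSubgroup.zmultiples P).index : ℚ_[p])⁻¹ ^ 2) • sq p W K P) ∧
    ∀ q : ℚ, q ≠ 0 → classJ p W K (iF : F →+* L) z ≠ (q : ℚ_[p]) • sq p W K P := by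
  have hmain : ∀ q : ℚ, q ≠ 0 → classJ p W K (iF : F →+* L) z ≠ (q : ℚ_[p]) • sq p W K P :=
    fun q hq => main p W K hord α hroot iH iF iL u σ σ' c₀ x₀ z hz P hP hidx q hq
  refine ⟨fun S C hS hC => ?_, hmain⟩
  have h1 : (1 : ℤ) + p - ap W p ≠ 0 := by
    have := (ap_ne p W).1
    intro h
    apply this
    linarith
  have h2 : (1 : ℚ) + p - ap W p ≠ 0 := by exact_mod_cast h1
  have hp0 : (p : ℚ) ≠ 0 := by exact_mod_cast (Fact.out : p.Prime).ne_zero
  have hS' : (S : ℚ) ≠ 0 := by exact_mod_cast hS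
  have hC' : (C : ℚ) ≠ 0 := by exact_mod_cast hC
  have hi' : ((AddSubgroup.zmultiples P).index : ℚ) ≠ 0 := by exact_mod_cast hidx
  have h3 := hmain ((((p : ℚ)⁻¹ ^ 2 * (1 + p - (ap W p : ℚ)) ^ 2 * S * C ^ 2) *
        (((AddSubgroup.zmultiples P).index : ℚ)⁻¹) ^ 2)) (by positivity)
  push_cast at h3
  exact h3

end Pool.Agent.Results.MP_77557b_nt.RankOneEulerFactor
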